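import Pool.Agent.Y55.Col.Space
import Pool.Agent.H350R3.MG.PLem

/-!
# The strong Fröberg–Iarrobino conjecture for many general points

For `n ≥ 2` and `s ≥ 3 ^ n` general points of `ℙⁿ` of the same multiplicity `m` (none of these cases
is an exception of the conjecture):

1. `dim ℒ_{n,d}(m^s) = ldim ℒ_{n,d}(m^s)` for all the degrees `d` outside the window
   `s ^ (1/n) * m ≤ d < s ^ (1/n) * (m + n - 1) + n - 1`, whose length does not depend on `m`;
2. for `s = t ^ n` the same equality for all the degrees if `m ≥ (n - 1) * t ^ n`, or `t = 3` and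
   `n ≤ 4`, or `t ≤ 5` and `n ≤ 3`, and in the other cases of `Case n t m d`.
-/

set_option autoImplicit false

namespace Pool.Agent.Results.MP_efa40c_ag.ManyPoints

open MvPolynomial
open scoped LinearAlgebra.Projectivization
open Pool.Agent.H350R3.MG

/-- `ℒ_{n,d}(m_1, …, m_s)`: the forms of degree `d` in `n + 1` variables which vanish to order at
least `m i` at the point `P i` of `ℙⁿ` for every `i`. -/
noncomputable def forms {n s : ℕ} (d : ℕ) (m : Fin s → ℕ) (P : Fin s → ℙ ℂ (Fin (n + 1) → ℂ)) :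
    Submodule ℂ (MvPolynomial (Fin (n + 1)) ℂ) :=
  homogeneousSubmodule (Fin (n + 1)) ℂ d ⊓
    Submodule.restrictScalars ℂ (⨅ i, primeIdeal (P i) ^ m i : Ideal (MvPolynomial (Fin (n + 1)) ℂ))

/-- `k_I = max (∑_{i ∈ I} m_i - r d, 0)`, where `I` has `r + 1` elements (in particular
`k_∅ = d`). The subtraction of natural numbers is truncated at `0`. -/
def kI {s : ℕ} (d : ℕ) (m : Fin s → ℕ) (I : Finset (Fin s)) : ℕ :=
  (∑ i ∈ I, m i + d) - I.card * d

/-- The linear virtual dimension of `ℒ_{n,d}(m_1, …, m_s)`: the sum over the sets `I` with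
`r + 1 ≤ n` elements of `(-1) ^ (r + 1) * binom (n + k_I - r - 1) n`. -/
def lvdim (n d : ℕ) {s : ℕ} (m : Fin s → ℕ) : ℤ :=
  ∑ I ∈ (Finset.univ : Finset (Finset (Fin s))).filter (fun I => I.card ≤ n),
    (-1) ^ I.card * ((n + kI d m I - I.card).choose n : ℤ)

open Classical in
/-- The linear expected dimension of `ℒ_{n,d}(m_1, …, m_s)`. -/
noncomputable def ldim (n d : ℕ) {s : ℕ} (m : Fin s → ℕ) : ℤ :=
  if ∃ m' : Fin s → ℕ, (∀ i, m' i ≤ m i) ∧ lvdim n d m' < 0 then 0 else max (lvdim n d m) 0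

/-- The cases for `t ^ n` points of multiplicity `m` in degree `d`. -/
def Case (n t m d : ℕ) : Prop :=
  (n - 1) * t ^ n ≤ m ∨ d < t * m ∨ 2 * t * m + (n - 1) * t ≤ 2 * d + n + 1 ∨
    (d + t + n - t * m).choose n ≤ t ^ n ∨ (t = 3 ∧ n ≤ 4) ∨ (t ≤ 5 ∧ n ≤ 3)

/-! ### The linear virtual dimension -/

theorem lvdim_eq {n d s : ℕ} (hn : 1 ≤ n) (m : Fin s → ℕ)
    (h : ∀ I : Finset (Fin s), 2 ≤ I.card → kI d m I < I.card) :
    lvdim n d m = ((d + n).choose n : ℤ) - ∑ i, ((m i + n - 1).choose n : ℤ) := by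
  classical
  unfold lvdim
  set f : Finset (Fin s) → ℤ := fun I => (-1) ^ I.card * ((n + kI d m I - I.card).choose n : ℤ)
    with hf
  have hsub : insert ∅ ((Finset.univ : Finset (Fin s)).image fun i => ({i} : Finset (Fin s))) ⊆
      (Finset.univ : Finset (Finset (Fin s))).filter (fun I => I.card ≤ n) := by
    intro I hI
    rw [Finset.mem_filter]
    refine ⟨Finset.mem_univ _, ?_⟩
    rcases Finset.mem_insert.1 hI with h0 | h0
    · rw [h0, Finset.card_empty]
      exact Nat.zero_le _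
    · obtain ⟨i, _, rfl⟩ := Finset.mem_image.1 h0
      rw [Finset.card_singleton]
      exact hn
  rw [← Finset.sum_subset hsub]
  · rw [Finset.sum_insert, Finset.sum_image]
    · have h1 : f ∅ = ((d + n).choose n : ℤ) := by
        simp [hf, kI, add_comm]
      have h2 : ∀ i, f {i} = -((m i + n - 1).choose n : ℤ) := by
        intro i
        simp only [hf, kI, Finset.card_singleton, Finset.sum_singleton, one_mul, pow_one]
        have e : n + (m i + d - d) - 1 = m i + n - 1 := by omega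
        rw [e]
        ring
      change f ∅ + ∑ i, f {i} = _
      rw [h1, Finset.sum_congr rfl fun i _ => h2 i, Finset.sum_neg_distrib]
      ring
    · intro i _ j _ hij
      exact Finset.singleton_injective hij
    · intro h0
      obtain ⟨i, _, hi⟩ := Finset.mem_image.1 h0
      exact Finset.singleton_ne_empty i hi
  · intro I hI hI'
    rw [Finset.mem_filter] at hI
    have hc : 2 ≤ I.card := by
      by_contra hcon
      push Not at hcon
      rcases Nat.lt_or_ge I.card 1 with h0 | h0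
      · have h1 : I = ∅ := Finset.card_eq_zero.1 (by omega)
        exact hI' (Finset.mem_insert.2 (Or.inl h1))
      · obtain ⟨i, hi⟩ := Finset.card_eq_one.1 (by omega : I.card = 1)
        exact hI' (Finset.mem_insert.2 (Or.inr (Finset.mem_image.2 ⟨i, Finset.mem_univ _, hi.symm⟩)))
    have h1 := h I hc
    show (-1 : ℤ) ^ I.card * ((n + kI d m I - I.card).choose n : ℤ) = 0
    rw [Nat.choose_eq_zero_of_lt (by omega)]
    simp

theorem kI_lt {d s μ : ℕ} {m : Fin s → ℕ} (hm : ∀ i, m i ≤ μ) (hμ : 2 * μ ≤ d + 1)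
    (I : Finset (Fin s)) (hI : 2 ≤ I.card) : kI d m I < I.card := by
  have h1 : ∑ i ∈ I, m i ≤ I.card * μ := by
    have := Finset.sum_le_card_nsmul I m μ fun i _ => hm i
    rwa [smul_eq_mul] at this
  unfold kI
  have h2 : I.card * (2 * μ) ≤ I.card * (d + 1) := Nat.mul_le_mul_left _ hμ
  have h3 : 2 * (d + 1) ≤ I.card * (d + 1) := Nat.mul_le_mul_right _ hI
  have e1 : I.card * (2 * μ) = 2 * (I.card * μ) := by ring
  have e2 : I.card * (d + 1) = I.card * d + I.card := by ring
  omega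

/-! ### Binomial coefficients -/

theorem asc_le : ∀ (n x y : ℕ), x ≤ 2 * y + 1 → 1 ≤ y →
    x.ascFactorial n ≤ 3 ^ n * y.ascFactorial n := by
  intro n
  induction n with
  | zero => intro x y _ _; simp
  | succ n ih =>
    intro x y hx hy
    rw [Nat.ascFactorial_succ, Nat.ascFactorial_succ]
    calc (x + n) * x.ascFactorial n ≤ (3 * (y + n)) * (3 ^ n * y.ascFactorial n) :=
        Nat.mul_le_mul (by omega) (ih x y hx hy)
      _ = 3 ^ (n + 1) * ((y + n) * y.ascFactorial n) := by ring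

theorem asc_lt {n x y : ℕ} (hn : 2 ≤ n) (hx : x ≤ 2 * y + 1) (hy : 1 ≤ y) :
    x.ascFactorial n < 3 ^ n * y.ascFactorial n := by
  obtain ⟨k, rfl⟩ : ∃ k, n = k + 1 + 1 := ⟨n - 2, by omega⟩
  rw [Nat.ascFactorial_succ, Nat.ascFactorial_succ (n := y)]
  have hpos : 0 < 3 ^ (k + 1) * y.ascFactorial (k + 1) := by
    have h1 : 0 < y.ascFactorial (k + 1) := by
      obtain ⟨z, rfl⟩ : ∃ z, y = z + 1 := ⟨y - 1, by omega⟩
      exact Nat.ascFactorial_pos z (k + 1)
    positivity
  calc (x + (k + 1)) * x.ascFactorial (k + 1)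
      ≤ (x + (k + 1)) * (3 ^ (k + 1) * y.ascFactorial (k + 1)) :=
        Nat.mul_le_mul_left _ (asc_le (k + 1) x y hx hy)
    _ < (3 * (y + (k + 1))) * (3 ^ (k + 1) * y.ascFactorial (k + 1)) :=
        Nat.mul_lt_mul_of_pos_right (by omega) hpos
    _ = 3 ^ (k + 1 + 1) * ((y + (k + 1)) * y.ascFactorial (k + 1)) := by ring

/-- few conditions imply a small multiplicity -/
theorem two_mul_le {n d s a : ℕ} (hn : 2 ≤ n) (hs : 3 ^ n ≤ s) (ha : 1 ≤ a)
    (h : s * (a + n - 1).choose n ≤ (d + n).choose n) : 2 * (a + 1) ≤ d + 1 := by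
  by_contra hcon
  push Not at hcon
  have h1 := asc_lt (n := n) (x := d + 1) (y := a) hn (by omega) ha
  obtain ⟨b, rfl⟩ : ∃ b, a = b + 1 := ⟨a - 1, by omega⟩
  rw [Nat.ascFactorial_eq_factorial_mul_choose, Nat.ascFactorial_eq_factorial_mul_choose] at h1
  have e : b + 1 + n - 1 = b + n := by omega
  rw [e] at h
  have h2 : 3 ^ n * (b + n).choose n ≤ (d + n).choose n :=
    (Nat.mul_le_mul_right _ hs).trans h
  have h3 : n.factorial * (3 ^ n * (b + n).choose n) ≤ n.factorial * (d + n).choose n :=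
    Nat.mul_le_mul_left _ h2
  have e2 : 3 ^ n * (n.factorial * (b + n).choose n) =
    n.factorial * (3 ^ n * (b + n).choose n) := by ring
  rw [e2] at h1
  omega

/-! ### The linear expected dimension -/

/-- `ldim` if the conditions are not too many. -/
theorem ldim_of_ge {n d s m : ℕ} (hn : 2 ≤ n) (hs : 3 ^ n ≤ s) (hm : 1 ≤ m)
    (h : s * (m + n - 1).choose n ≤ (d + n).choose n) :
    ldim n d (fun _ : Fin s => m) = ((d + n).choose n : ℤ) - s * ((m + n - 1).choose n : ℤ) := by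
  have h2 := two_mul_le hn hs hm h
  have key : ∀ m' : Fin s → ℕ, (∀ i, m' i ≤ m) →
      ((d + n).choose n : ℤ) - s * ((m + n - 1).choose n : ℤ) ≤ lvdim n d m' := by
    intro m' hm'
    rw [lvdim_eq (by omega) m' fun I hI => kI_lt hm' (by omega) I hI]
    have h3 : ∑ i, ((m' i + n - 1).choose n : ℤ) ≤ ∑ _i : Fin s, ((m + n - 1).choose n : ℤ) :=
      Finset.sum_le_sum fun i _ => by
        exact_mod_cast Nat.choose_le_choose n (by have := hm' i; omega)
    rw [Finset.sum_const, Finset.card_univ, Fintype.card_fin, nsmul_eq_mul] at h3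
    linarith
  have h0 : (0 : ℤ) ≤ ((d + n).choose n : ℤ) - s * ((m + n - 1).choose n : ℤ) := by
    rw [sub_nonneg]
    exact_mod_cast h
  unfold ldim
  rw [if_neg, lvdim_eq (by omega) _ fun I hI => kI_lt (fun _ => le_rfl) (by omega) I hI,
    Finset.sum_const, Finset.card_univ, Fintype.card_fin, nsmul_eq_mul, max_eq_left h0]
  rintro ⟨m', h3, h4⟩
  have := key m' h3
  linarith

/-- `ldim` if the conditions are too many. -/
theorem ldim_of_le {n d s m : ℕ} (hn : 2 ≤ n) (hs : 3 ^ n ≤ s) (hm : 1 ≤ m) (hd : 1 ≤ d)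
    (h : (d + n).choose n ≤ s * (m + n - 1).choose n) :
    ldim n d (fun _ : Fin s => m) = 0 := by
  classical
  rcases Nat.eq_or_lt_of_le h with h | h
  · rw [ldim_of_ge hn hs hm h.ge, sub_eq_zero]
    exact_mod_cast h
  have hex : ∃ μ, (d + n).choose n < s * (μ + n - 1).choose n := ⟨m, h⟩
  set μ := Nat.find hex with hμ
  have h1 : (d + n).choose n < s * (μ + n - 1).choose n := Nat.find_spec hex
  have h2 : μ ≤ m := Nat.find_min' hex h
  have h3 : 1 ≤ μ := by
    by_contra hcon
    have h0 : μ = 0 := by omega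
    rw [h0, Nat.choose_eq_zero_of_lt (by omega : 0 + n - 1 < n)] at h1
    omega
  have h4 : 2 * μ ≤ d + 1 := by
    rcases Nat.eq_or_lt_of_le h3 with h5 | h5
    · omega
    · have h6 := Nat.find_min hex (m := μ - 1) (by omega)
      push Not at h6
      have h7 := two_mul_le hn hs (by omega : 1 ≤ μ - 1) h6
      omega
  unfold ldim
  rw [if_pos]
  refine ⟨fun _ => μ, fun _ => h2, ?_⟩
  rw [lvdim_eq (by omega) _ fun I hI => kI_lt (fun _ => le_rfl) h4 I hI,
    Finset.sum_const, Finset.card_univ, Fintype.card_fin, nsmul_eq_mul, sub_neg]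
  exact_mod_cast h1

theorem case_cs {n t m d : ℕ} (h : Case n t m d) : Pool.Agent.Y55.Col.Cs n t m d := by
  unfold Case at h
  unfold Pool.Agent.Y55.Col.Cs
  tauto

/-- The strong Fröberg–Iarrobino conjecture for `s ≥ 3 ^ n` general points of `ℙⁿ`, outside a window
of degrees, and for `t ^ n` points. -/
theorem result (n : ℕ) (hn : 2 ≤ n) :
    (∀ s m : ℕ, 3 ^ n ≤ s → 1 ≤ m →
      Generally (fun P : Fin s → ℙ ℂ (Fin (n + 1) → ℂ) => ∀ d : ℕ, 1 ≤ d →
        (d : ℝ) < (s : ℝ) ^ (1 / (n : ℝ)) * m ∨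
          (s : ℝ) ^ (1 / (n : ℝ)) * ((m : ℝ) + n - 1) + ((n : ℝ) - 1) ≤ d →
        (Module.finrank ℂ ↥(forms d (fun _ => m) P) : ℤ) = ldim n d (fun _ : Fin s => m))) ∧
    (∀ t m d : ℕ, 3 ≤ t → 1 ≤ m → 1 ≤ d → Case n t m d →
      Generally (fun P : Fin (t ^ n) → ℙ ℂ (Fin (n + 1) → ℂ) =>
        (Module.finrank ℂ ↥(forms d (fun _ => m) P) : ℤ) =
          ldim n d (fun _ : Fin (t ^ n) => m))) := by
  constructor
  · intro s m hs hm
    obtain ⟨U, hU, hU', h⟩ := TH3.IR.main_window (r := n) hn hs (fun _ : Fin s => m)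
    refine ⟨U, hU, hU', fun P hP d hd1 hd => ?_⟩
    have hs0 : (0 : ℝ) < s := by
      have h1 : 0 < s := lt_of_lt_of_le (by positivity) hs
      exact_mod_cast h1
    have hn0 : (n : ℝ) ≠ 0 := by
      have : n ≠ 0 := by omega
      exact_mod_cast this
    have e0 : forms d (fun _ => m) P = TH3.IR.pforms d (fun _ => m) P := rfl
    rcases hd with hd | hd
    · have h1 : (s : ℝ) ^ (((n : ℝ) - 1) / n) * d < ∑ _i : Fin s, (m : ℝ) := by
        rw [Finset.sum_const, Finset.card_univ, Fintype.card_fin, nsmul_eq_mul]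
        have h2 : (0 : ℝ) < (s : ℝ) ^ (((n : ℝ) - 1) / n) := Real.rpow_pos_of_pos hs0 _
        have h3 : (s : ℝ) ^ (((n : ℝ) - 1) / n) * (s : ℝ) ^ (1 / (n : ℝ)) = s := by
          rw [← Real.rpow_add hs0]
          have e : ((n : ℝ) - 1) / n + 1 / n = 1 := by field_simp; ring
          rw [e, Real.rpow_one]
        calc (s : ℝ) ^ (((n : ℝ) - 1) / n) * d
            < (s : ℝ) ^ (((n : ℝ) - 1) / n) * ((s : ℝ) ^ (1 / (n : ℝ)) * m) :=
              mul_lt_mul_of_pos_left hd h2
          _ = s * m := by rw [← mul_assoc, h3]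
      obtain ⟨h4, h5⟩ := (h P hP d).1 h1
      rw [e0, h4, finrank_bot, ldim_of_le hn hs hm hd1]
      · rfl
      · rw [Finset.sum_const, Finset.card_univ, Fintype.card_fin, smul_eq_mul] at h5
        exact h5
    · have h1 := (h P hP d).2 fun _ => hd
      rw [Finset.sum_const, Finset.card_univ, Fintype.card_fin, smul_eq_mul] at h1
      rw [e0, ldim_of_ge hn hs hm (by omega), eq_sub_iff_add_eq]
      exact_mod_cast (add_comm _ _).trans h1
  · intro t m d ht hm hd hc
    obtain ⟨k, rfl⟩ : ∃ k, n = k + 1 := ⟨n - 1, by omega⟩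
    obtain ⟨D, hD, h⟩ := Pool.Agent.Y55.Col.uniform k t m d (by omega) hm (case_cs hc)
    refine generally_of_poly D hD fun v hv hp => ?_
    have h1 := h v hp
    have e0 : forms d (fun _ => m) (fun i => Projectivization.mk ℂ (v i) (hv i)) =
        Pool.Agent.H938R2.forms (k + 2) d (fun _ => m) v :=
      Pool.Agent.Y55.Col.pforms_eq (r := k + 1) (fun _ => m) v hv
    have hs : 3 ^ (k + 1) ≤ t ^ (k + 1) := Nat.pow_le_pow_left ht _
    have e1 : m + (k + 1) - 1 = m + k := by omega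
    rw [e0, h1]
    rcases Nat.le_total (t ^ (k + 1) * (m + k).choose (k + 1)) ((d + (k + 1)).choose (k + 1))
      with h2 | h2
    · rw [ldim_of_ge hn hs hm (by rw [e1]; exact h2), e1, Nat.cast_sub h2]
      push_cast
      rfl
    · rw [ldim_of_le hn hs hm hd (by rw [e1]; exact h2), Nat.sub_eq_zero_of_le h2]
      rfl

end Pool.Agent.Results.MP_efa40c_ag.ManyPoints
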